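import Pool.Agent.Lib.H82OT.FN8
import Pool.Agent.Lib.H22M.FG

set_option autoImplicit false

/-!
# Möbius disjointness in order three

`R` is an ergodic automorphism of a standard probability space `(Y, m)`. A torus step over a rotation is
a factor map `π` to a rotation of a compact abelian group `Z` with a measurable torus coordinate
`u = (u 0, …, u (r - 1))`, `u (R y) = φ (π y) u y` (`r` any number, `r = 0` allowed, `φ` only
measurable). Above the σ-algebra of `(π, u)` one builds towers of finite extensions of bounded degree, of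
any transfinite length, and on top of such a level one isometric extension `v` with an arbitrary compact
homogeneous space as fibre and an arbitrary measurable cocycle. Inverse limits of such systems are
allowed. If the eigenvalues of `R` satisfy condition `(D)`, every uniquely ergodic model of `R` is Möbius
disjoint. This covers e.g. the ergodic maps `(x + a, y + h(x), z + H(x, y))` of the 3-torus which satisfy
`(D)`, `h` and `H` only measurable.
-/

namespace Pool.Agent.Results.MP_10e165_an.OrderThree

open MeasureTheory Filter Topology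

/-- `c` is an eigenvalue of `R` (with respect to the measure `m`): there is a measurable function `f`,
of modulus one almost everywhere, with `f (R y) = c * f y` for almost every `y`. -/
def IsEigenvalue {Y : Type*} [MeasurableSpace Y] (m : Measure Y) (R : Y → Y) (c : ℂ) : Prop :=
  ∃ f : Y → ℂ, Measurable f ∧ (∀ᵐ y ∂m, ‖f y‖ = 1) ∧ ∀ᵐ y ∂m, f (R y) = c * f y

/-- Condition `(D)`: for every finite set `F` of complex numbers different from `1`, the primes `p`
such that no element of `F` is the `p`-th power of an eigenvalue have a divergent sum of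
reciprocals. -/
def ConditionD {Y : Type*} [MeasurableSpace Y] (m : Measure Y) (R : Y → Y) : Prop :=
  ∀ F : Finset ℂ, (1 : ℂ) ∉ F → ¬ Summable (Set.indicator
    {p : ℕ | p.Prime ∧ ∀ c ∈ F, ∀ e : ℂ, IsEigenvalue m R e → e ^ p ≠ c} fun p => 1 / (p : ℝ))

/-- The eigenvalues of `R` lie in a finitely generated group, and none but `1` is a root of unity: the
group of eigenvalues is finitely generated and torsion free. -/
def FGTorsionFree {Y : Type*} [MeasurableSpace Y] (m : Measure Y) (R : Y → Y) : Prop :=
  (∃ S : Finset ℂˣ, ∀ e : ℂˣ, IsEigenvalue m R (e : ℂ) → e ∈ Subgroup.closure (S : Set ℂˣ)) ∧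
    ∀ e : ℂ, IsEigenvalue m R e → ∀ n : ℕ, 1 ≤ n → e ^ n = 1 → e = 1

/-- `(X, T)`, with the measure `ν`, is a uniquely ergodic model of `(Y, m, R)`: `ν` is the only
`T`-invariant probability measure, and `θ : X → Y`, `ψ : Y → X` are measurable, inverse to each other
up to null sets, carry `ν` to `m` and `m` to `ν`, and `θ (T x) = R (θ x)` for almost every `x`. -/
structure IsUEModel {X Y : Type*} [MeasurableSpace X] [MeasurableSpace Y]
    (T : X → X) (ν : Measure X) (m : Measure Y) (R : Y → Y) (θ : X → Y) (ψ : Y → X) : Prop where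
  prob : IsProbabilityMeasure ν
  inv : MeasurePreserving T ν ν
  unique : ∀ ν' : Measure X, IsProbabilityMeasure ν' → MeasurePreserving T ν' ν' → ν' = ν
  meas_theta : Measurable θ
  meas_psi : Measurable ψ
  map_theta : ν.map θ = m
  map_psi : m.map ψ = ν
  left_inv : ∀ᵐ x ∂ν, ψ (θ x) = x
  right_inv : ∀ᵐ y ∂m, θ (ψ y) = y
  equiv : ∀ᵐ x ∂ν, θ (T x) = R (θ x)

/-- `(π, u)` is a torus step over a rotation: `π : Y → Z` has the law `lam` and `π (R y) = α π y`, and
`u 0, …, u (r - 1)` are measurable functions of modulus one with `u j (R y) = φ j (π y) u j y`, where the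
`φ j : Z → ℂ` are measurable of modulus one. -/
structure TorusStep {Y Z : Type*} [MeasurableSpace Y] [Mul Z] [MeasurableSpace Z] (m : Measure Y)
    (R : Y → Y) (lam : Measure Z) (π : Y → Z) (α : Z) {r : ℕ} (u : Fin r → Y → ℂ)
    (φ : Fin r → Z → ℂ) : Prop where
  law : MeasurePreserving π m lam
  rot : ∀ y, π (R y) = α * π y
  meas_u : ∀ j, Measurable (u j)
  norm_u : ∀ j y, ‖u j y‖ = 1
  meas_phi : ∀ j, Measurable (φ j)
  norm_phi : ∀ j z, ‖φ j z‖ = 1
  equiv : ∀ j y, u j (R y) = φ j (π y) * u j y

/-- The σ-algebras of the levels of the towers over the σ-algebra `ℬ₀`, with steps of degree at most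
`D`: `ℬ₀` itself; with `ℬ` also the σ-algebra generated by `ℬ` and a measurable
`θ : Y → {0, …, d - 1}`, `d ≤ D`, such that `θ (R y)` is the image of `θ y` under a permutation
`Φ y` depending `ℬ`-measurably on `y` (a finite extension); and the supremum of every nonempty
directed set of such levels. (`mY` is the σ-algebra of `Y`.) -/
inductive TowerLevel {Y : Type*} (mY : MeasurableSpace Y) (R : Y → Y) (D : ℕ)
    (ℬ₀ : MeasurableSpace Y) : MeasurableSpace Y → Prop
  | base : TowerLevel mY R D ℬ₀ ℬ₀
  | step (ℬ : MeasurableSpace Y) (h : TowerLevel mY R D ℬ₀ ℬ) (d : ℕ) (hd : d ≤ D)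
      (θ : Y → Fin d) (hθ : Measurable[mY, ⊤] θ) (Φ : Y → Equiv.Perm (Fin d))
      (hΦ : ∀ s, MeasurableSet[ℬ] {y | Φ y = s}) (hR : ∀ y, θ (R y) = Φ y (θ y)) :
      TowerLevel mY R D ℬ₀ (ℬ ⊔ MeasurableSpace.comap θ ⊤)
  | sup (𝒮 : Set (MeasurableSpace Y)) (hne : 𝒮.Nonempty) (hdir : DirectedOn (· ≤ ·) 𝒮)
      (h : ∀ ℬ ∈ 𝒮, TowerLevel mY R D ℬ₀ ℬ) : TowerLevel mY R D ℬ₀ (sSup 𝒮)

theorem TowerLevel.tow {Y : Type*} {mY : MeasurableSpace Y} {R : Y → Y} {D : ℕ}
    {ℬ₀ ℬ : MeasurableSpace Y} (h : TowerLevel mY R D ℬ₀ ℬ) :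
    Pool.Agent.Lib.H82T.Tow mY R D ℬ₀ ℬ := by
  induction h with
  | base => exact .base
  | step ℬ _ d hd θ hθ Φ hΦ hR ih => exact .step ℬ ih d hd θ hθ Φ hΦ hR
  | sup 𝒮 hne hdir _ ih => exact .sup 𝒮 hne hdir ih

/-- `v : Y → M` is an isometric step over the σ-algebra `ℬ`: `M` carries an action of the group `K` and the
measure `muM`, `v` has the law `muM`, and `v (R y) = f y • v y` with a `ℬ`-measurable `f : Y → K`. -/
structure IsometricStep {Y K M : Type*} (ℬ : MeasurableSpace Y) [MeasurableSpace Y]
    [MeasurableSpace K] [MeasurableSpace M] [SMul K M] (m : Measure Y) (R : Y → Y)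
    (muM : Measure M) (v : Y → M) (f : Y → K) : Prop where
  law : MeasurePreserving v m muM
  cocycle : Measurable[ℬ] f
  equiv : ∀ y, v (R y) = f y • v y

/-- Let `(Y, m)` be a standard probability space and `R` an ergodic invertible measure-preserving map
whose eigenvalues satisfy `(D)` (for instance: a finitely generated torsion free group). For every `i` in
a nonempty index set let `Z i` be a compact metrizable abelian group with Haar probability measure
`lam i`, `(π i, u i)` a torus step over the rotation of `Z i` by `α i`, with `r i` coordinates, `ℬ i` a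
level of a tower (with some bound `D`) over the σ-algebra generated by `(π i, u i)` and `v i : Y → M i` an
isometric step over `ℬ i`, where `M i` is a compact metrizable space with a continuous transitive action
of the compact metrizable group `K i` and an invariant probability measure. Let the σ-algebras generated
by `ℬ i` and `v i` be a directed family which generates the measurable sets of `Y` up to null sets. Then
every uniquely ergodic model `(X, T)` of `R` is Möbius disjoint. -/
theorem result {Y X ι : Type*} [Nonempty ι] (ℬ : ι → MeasurableSpace Y)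
    [mY : MeasurableSpace Y] [StandardBorelSpace Y] (m : Measure Y) [IsProbabilityMeasure m]
    (R : Y ≃ᵐ Y) (hR : Ergodic R m) (hD : ConditionD m R ∨ FGTorsionFree m R)
    {Z K M : ι → Type*} [∀ i, CommGroup (Z i)] [∀ i, TopologicalSpace (Z i)]
    [∀ i, IsTopologicalGroup (Z i)] [∀ i, CompactSpace (Z i)] [∀ i, T2Space (Z i)]
    [∀ i, SecondCountableTopology (Z i)] [∀ i, MeasurableSpace (Z i)] [∀ i, BorelSpace (Z i)]
    (lam : ∀ i, Measure (Z i)) [∀ i, (lam i).IsHaarMeasure] [∀ i, IsProbabilityMeasure (lam i)]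
    (π : ∀ i, Y → Z i) (α : ∀ i, Z i) (r : ι → ℕ) (u : ∀ i, Fin (r i) → Y → ℂ)
    (φ : ∀ i, Fin (r i) → Z i → ℂ)
    (hbase : ∀ i, TorusStep m R (lam i) (π i) (α i) (u i) (φ i))
    (hlevel : ∀ i, ∃ D : ℕ, TowerLevel mY R D
      (MeasurableSpace.comap (fun y => (π i y, fun j => u i j y)) inferInstance) (ℬ i))
    [∀ i, Group (K i)] [∀ i, TopologicalSpace (K i)]
    [∀ i, IsTopologicalGroup (K i)] [∀ i, CompactSpace (K i)] [∀ i, T2Space (K i)]
    [∀ i, SecondCountableTopology (K i)] [∀ i, MeasurableSpace (K i)] [∀ i, BorelSpace (K i)]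
    [∀ i, TopologicalSpace (M i)] [∀ i, CompactSpace (M i)] [∀ i, T2Space (M i)]
    [∀ i, SecondCountableTopology (M i)] [∀ i, MeasurableSpace (M i)] [∀ i, BorelSpace (M i)]
    [∀ i, MulAction (K i) (M i)] [∀ i, ContinuousSMul (K i) (M i)]
    [∀ i, MulAction.IsPretransitive (K i) (M i)]
    (muM : ∀ i, Measure (M i)) [∀ i, IsProbabilityMeasure (muM i)]
    [∀ i, SMulInvariantMeasure (K i) (M i) (muM i)]
    (v : ∀ i, Y → M i) (f : ∀ i, Y → K i)
    (hstep : ∀ i, IsometricStep (ℬ i) m R (muM i) (v i) (f i))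
    (hdir : Directed (· ≤ ·) fun i => ℬ i ⊔ MeasurableSpace.comap (v i) inferInstance)
    (hgen : ∀ A : Set Y, MeasurableSet A → ∃ B,
      MeasurableSet[⨆ i, (ℬ i ⊔ MeasurableSpace.comap (v i) inferInstance)] B ∧
        m (symmDiff A B) = 0)
    [MetricSpace X] [CompactSpace X] [MeasurableSpace X] [BorelSpace X]
    (T : X ≃ₜ X) (ν : Measure X) (θ : X → Y) (ψ : Y → X) (hmodel : IsUEModel T ν m R θ ψ)
    (g : C(X, ℂ)) (x : X) :
    Tendsto (fun N : ℕ => (1 / (N : ℂ)) *
      ∑ n ∈ Finset.Icc 1 N, g ((⇑T)^[n] x) * (ArithmeticFunction.moebius n : ℂ)) atTop (𝓝 0) := by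
  have hD' : Pool.Agent.Lib.H22M.ManyGoodPrimes m R := by
    rcases hD with h | ⟨⟨S, hS⟩, htor⟩
    · exact h
    · exact Pool.Agent.Lib.H22M.manyGoodPrimes_of_fg _ _ hR.toMeasurePreserving S hS htor
  exact Pool.Agent.Lib.H82OT.main_levels ℬ R hR hD' lam π (fun i => (hbase i).law) α
    (fun i => (hbase i).rot) r u (fun i => (hbase i).meas_u) (fun i => (hbase i).norm_u)
    φ (fun i => (hbase i).meas_phi) (fun i => (hbase i).norm_phi) (fun i => (hbase i).equiv)
    (fun i => (hlevel i).imp fun D hD => hD.tow) muM v (fun i => (hstep i).law) f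
    (fun i => (hstep i).cocycle) (fun i => (hstep i).equiv) hdir hgen T ν θ ψ
    ⟨hmodel.prob, hmodel.inv, hmodel.unique, hmodel.meas_theta, hmodel.meas_psi,
      hmodel.map_theta, hmodel.map_psi, hmodel.left_inv, hmodel.right_inv, hmodel.equiv⟩ g x

end Pool.Agent.Results.MP_10e165_an.OrderThree
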