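import Pool.Agent.Lib.H82OG.MC4
import Pool.Agent.Lib.H22M.FG

set_option autoImplicit false

/-!
# Möbius disjointness in order three, second step `K/H`

`R` is an ergodic automorphism of a standard probability space `(Y, m)`. Second steps: a rotation factor
`π : Y → Z` and a measurable `u : Y → U` with `u (R y) = φ (π y) • u y`, where the compact metrizable group
`K` acts continuously on `U` and `φ : Z → K` is only measurable. For the closed subgroups `H` of the
stabilisers the `n`-th powers of the characters, for some `n ≥ 1`, are asked to lie in a finitely generated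
group; if the stabilisers are trivial, `K` is an arbitrary compact metrizable group. Third steps: an
isometric extension `v` of `(π, u)` with an arbitrary compact homogeneous space as fibre. Inverse limits of
such systems, and their factors, are allowed. If the eigenvalues of `R` satisfy condition `(D)`, every
uniquely ergodic model of every factor of `R` is Möbius disjoint.
-/

namespace Pool.Agent.Results.MP_10e165_an.OrderThreeGeneral

open MeasureTheory Filter Topology

universe u₁ u₂ u₃ u₄ u₅

/-- `c` is an eigenvalue of `R` (with respect to the measure `m`): there is a measurable function `f`,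
of modulus one almost everywhere, with `f (R y) = c * f y` for almost every `y`. -/
def IsEigenvalue {Y : Type*} [MeasurableSpace Y] (m : Measure Y) (R : Y → Y) (c : ℂ) : Prop :=
  ∃ f : Y → ℂ, Measurable f ∧ (∀ᵐ y ∂m, ‖f y‖ = 1) ∧ ∀ᵐ y ∂m, f (R y) = c * f y

/-- Condition `(D)`: for every finite set `F` of complex numbers different from `1`, the primes `p`
such that no element of `F` is the `p`-th power of an eigenvalue have a divergent sum of
reciprocals. -/
def ConditionD {Y : Type*} [MeasurableSpace Y] (m : Measure Y) (R : Y → Y) : Prop :=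
  ∀ F : Finset ℂ, (1 : ℂ) ∉ F → ¬ Summable (Set.indicator
    {p : ℕ | p.Prime ∧ ∀ c ∈ F, ∀ e : ℂ, IsEigenvalue m R e → e ^ p ≠ c} fun p => 1 / (p : ℝ))

/-- The eigenvalues of `R` lie in a finitely generated group, and none but `1` is a root of unity: the
group of eigenvalues is finitely generated and torsion free. -/
def FGTorsionFree {Y : Type*} [MeasurableSpace Y] (m : Measure Y) (R : Y → Y) : Prop :=
  (∃ S : Finset ℂˣ, ∀ e : ℂˣ, IsEigenvalue m R (e : ℂ) → e ∈ Subgroup.closure (S : Set ℂˣ)) ∧
    ∀ e : ℂ, IsEigenvalue m R e → ∀ n : ℕ, 1 ≤ n → e ^ n = 1 → e = 1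

/-- `(X, T)`, with the measure `ν`, is a uniquely ergodic model of `(Y, m, R)`: `ν` is the only
`T`-invariant probability measure, and `θ : X → Y`, `ψ : Y → X` are measurable, inverse to each other
up to null sets, carry `ν` to `m` and `m` to `ν`, and `θ (T x) = R (θ x)` for almost every `x`. -/
structure IsUEModel {X Y : Type*} [MeasurableSpace X] [MeasurableSpace Y]
    (T : X → X) (ν : Measure X) (m : Measure Y) (R : Y → Y) (θ : X → Y) (ψ : Y → X) : Prop where
  prob : IsProbabilityMeasure ν
  inv : MeasurePreserving T ν ν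
  unique : ∀ ν' : Measure X, IsProbabilityMeasure ν' → MeasurePreserving T ν' ν' → ν' = ν
  meas_theta : Measurable θ
  meas_psi : Measurable ψ
  map_theta : ν.map θ = m
  map_psi : m.map ψ = ν
  left_inv : ∀ᵐ x ∂ν, ψ (θ x) = x
  right_inv : ∀ᵐ y ∂m, θ (ψ y) = y
  equiv : ∀ᵐ x ∂ν, θ (T x) = R (θ x)

/-- The stabilisers of the action of `K` on `U` are small: for every closed subgroup `H` of a stabiliser
there are `n ≥ 1` and finitely many continuous characters `H → S¹` such that the `n`-th power of every
continuous character of `H` is a product of powers of these. This holds if the stabilisers are trivial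
or of bounded exponent (see `smallStabilizers_of_exponent`), and also if they are Lie groups. -/
def SmallStabilizers (K U : Type*) [Group K] [TopologicalSpace K] [MulAction K U] : Prop :=
  ∀ (x : U) (H : Subgroup K), IsClosed (H : Set K) → (∀ h : K, h ∈ H → h • x = x) →
    ∃ (n : ℕ) (S : Finset (ContinuousMonoidHom H Circle)), 1 ≤ n ∧
      ∀ χ : ContinuousMonoidHom H Circle, χ ^ n ∈ Subgroup.closure
        (S : Set (ContinuousMonoidHom H Circle))

/-- Stabilisers of exponent dividing `n ≥ 1`, in particular trivial stabilisers (`n = 1`), are small. -/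
theorem smallStabilizers_of_exponent {K U : Type*} [Group K] [TopologicalSpace K] [MulAction K U]
    (n : ℕ) (hn : 1 ≤ n) (h : ∀ (x : U) (k : K), k • x = x → k ^ n = 1) :
    SmallStabilizers K U := by
  intro x H _ hH
  refine ⟨n, ∅, hn, fun χ => ?_⟩
  have h1 : χ ^ n = 1 := by
    ext k
    have hk : k ^ n = 1 := Subtype.ext (h x k (hH k k.2))
    have h2 : (χ ^ n) k = 1 := by
      rw [ContinuousMonoidHom.pow_apply, ← map_pow, hk, map_one]
    rw [h2]
    rfl
  rw [h1]
  exact one_mem _

/-- `(π, u)` is a second step: `π : Y → Z` is measurable, `π (R y) = α π y`, and `u : Y → U` is measurable,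
`u (R y) = φ (π y) • u y` with a measurable `φ : Z → K`. -/
structure SecondStep {Y Z K U : Type*} [MeasurableSpace Y] [Mul Z] [MeasurableSpace Z]
    [MeasurableSpace K] [MeasurableSpace U] [SMul K U] (R : Y → Y) (π : Y → Z) (α : Z)
    (u : Y → U) (φ : Z → K) : Prop where
  meas_pi : Measurable π
  rot : ∀ y, π (R y) = α * π y
  meas_u : Measurable u
  meas_phi : Measurable φ
  equiv : ∀ y, u (R y) = φ (π y) • u y

/-- `v : Y → M` is an isometric step over `P : Y → B`: `M` carries an action of the group `L` and the
measure `muM`, `v` has the law `muM`, and `v (R y) = g (P y) • v y` with a measurable `g : B → L`. -/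
structure IsometricStep {Y B L M : Type*} [MeasurableSpace Y] [MeasurableSpace B]
    [MeasurableSpace L] [MeasurableSpace M] [SMul L M] (m : Measure Y) (R : Y → Y) (P : Y → B)
    (muM : Measure M) (v : Y → M) (g : B → L) : Prop where
  law : MeasurePreserving v m muM
  meas : Measurable g
  equiv : ∀ y, v (R y) = g (P y) • v y

/-- Let `(Y, m)` be a standard probability space and `R` an ergodic invertible measure-preserving map
whose eigenvalues satisfy `(D)` (for instance: a finitely generated torsion free group). For every `i` in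
a nonempty index set let `(π i, u i)` be a second step, with a compact metrizable abelian group `Z i` and a
compact metrizable group `K i` acting continuously on the second countable Hausdorff space `U i` with
small stabilisers, and let `v i : Y → M i` be an isometric step over `(π i, u i)`, where `M i` is a compact
metrizable space with a continuous transitive action of the compact metrizable group `L i` and an
invariant probability measure. Let the σ-algebras generated by `(π i, u i, v i)` be a directed family which
generates the measurable sets of `Y` up to null sets. Let `(Y₁, m₁, R₁)` be a factor of `(Y, m, R)`. Then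
every uniquely ergodic model `(X, T)` of `R₁` is Möbius disjoint. -/
theorem result {Y : Type u₁} {Y₁ : Type u₂} {X : Type u₃} {ι : Type u₄} [Nonempty ι]
    [MeasurableSpace Y] [StandardBorelSpace Y] [MeasurableSpace Y₁] (m : Measure Y) [IsProbabilityMeasure m] (m₁ : Measure Y₁)
    [IsProbabilityMeasure m₁] (R : Y ≃ᵐ Y) (hR : Ergodic R m)
    (hD : ConditionD m R ∨ FGTorsionFree m R) {Z K U L M : ι → Type u₅}
    [∀ i, CommGroup (Z i)] [∀ i, TopologicalSpace (Z i)] [∀ i, IsTopologicalGroup (Z i)]
    [∀ i, CompactSpace (Z i)] [∀ i, T2Space (Z i)] [∀ i, SecondCountableTopology (Z i)]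
    [∀ i, MeasurableSpace (Z i)] [∀ i, BorelSpace (Z i)]
    [∀ i, Group (K i)] [∀ i, TopologicalSpace (K i)] [∀ i, IsTopologicalGroup (K i)]
    [∀ i, CompactSpace (K i)] [∀ i, T2Space (K i)] [∀ i, SecondCountableTopology (K i)]
    [∀ i, MeasurableSpace (K i)] [∀ i, BorelSpace (K i)]
    [∀ i, TopologicalSpace (U i)] [∀ i, T2Space (U i)] [∀ i, SecondCountableTopology (U i)]
    [∀ i, MeasurableSpace (U i)] [∀ i, BorelSpace (U i)]
    [∀ i, MulAction (K i) (U i)] [∀ i, ContinuousSMul (K i) (U i)]
    (hstab : ∀ i, SmallStabilizers (K i) (U i))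
    (π : ∀ i, Y → Z i) (α : ∀ i, Z i) (u : ∀ i, Y → U i) (φ : ∀ i, Z i → K i)
    (hsecond : ∀ i, SecondStep R (π i) (α i) (u i) (φ i))
    [∀ i, Group (L i)] [∀ i, TopologicalSpace (L i)] [∀ i, IsTopologicalGroup (L i)]
    [∀ i, CompactSpace (L i)] [∀ i, T2Space (L i)] [∀ i, SecondCountableTopology (L i)]
    [∀ i, MeasurableSpace (L i)] [∀ i, BorelSpace (L i)]
    [∀ i, TopologicalSpace (M i)] [∀ i, CompactSpace (M i)] [∀ i, T2Space (M i)]
    [∀ i, SecondCountableTopology (M i)] [∀ i, MeasurableSpace (M i)] [∀ i, BorelSpace (M i)]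
    [∀ i, MulAction (L i) (M i)] [∀ i, ContinuousSMul (L i) (M i)]
    [∀ i, MulAction.IsPretransitive (L i) (M i)]
    (muM : ∀ i, Measure (M i)) [∀ i, IsProbabilityMeasure (muM i)]
    [∀ i, SMulInvariantMeasure (L i) (M i) (muM i)]
    (v : ∀ i, Y → M i) (g : ∀ i, Z i × U i → L i)
    (hthird : ∀ i, IsometricStep m R (fun y => (π i y, u i y)) (muM i) (v i) (g i))
    (hdir : Directed (· ≤ ·) fun i =>
      MeasurableSpace.comap (fun y => (π i y, u i y)) inferInstance ⊔
        MeasurableSpace.comap (v i) inferInstance)
    (hgen : ∀ A : Set Y, MeasurableSet A → ∃ B,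
      MeasurableSet[⨆ i, (MeasurableSpace.comap (fun y => (π i y, u i y)) inferInstance ⊔
        MeasurableSpace.comap (v i) inferInstance)] B ∧ m (symmDiff A B) = 0)
    (R₁ : Y₁ ≃ᵐ Y₁) (τ : Y → Y₁) (hτ : MeasurePreserving τ m m₁)
    (hτR : ∀ᵐ y ∂m, τ (R y) = R₁ (τ y))
    [MetricSpace X] [CompactSpace X] [MeasurableSpace X] [BorelSpace X]
    (T : X ≃ₜ X) (ν : Measure X) (θ : X → Y₁) (ψ : Y₁ → X) (hmodel : IsUEModel T ν m₁ R₁ θ ψ)
    (f : C(X, ℂ)) (x : X) :
    Tendsto (fun N : ℕ => (1 / (N : ℂ)) *
      ∑ n ∈ Finset.Icc 1 N, f ((⇑T)^[n] x) * (ArithmeticFunction.moebius n : ℂ)) atTop (𝓝 0) := by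
  have hD' : Pool.Agent.Lib.H22M.ManyGoodPrimes m R := by
    rcases hD with h | ⟨⟨S, hS⟩, htor⟩
    · exact h
    · exact Pool.Agent.Lib.H22M.manyGoodPrimes_of_fg _ _ hR.toMeasurePreserving S hS htor
  exact Pool.Agent.Lib.H82OG.main_order_three R hR hD'
    (fun i x H hH hx => hstab i x H hH hx) π (fun i => (hsecond i).meas_pi) α
    (fun i => (hsecond i).rot) φ (fun i => (hsecond i).meas_phi) u
    (fun i => (hsecond i).meas_u) (fun i => (hsecond i).equiv) muM v (fun i => (hthird i).law) g
    (fun i => (hthird i).meas) (fun i => (hthird i).equiv) hdir hgen R₁ τ hτ hτR T ν θ ψ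
    ⟨hmodel.prob, hmodel.inv, hmodel.unique, hmodel.meas_theta, hmodel.meas_psi,
      hmodel.map_theta, hmodel.map_psi, hmodel.left_inv, hmodel.right_inv, hmodel.equiv⟩ f x

end Pool.Agent.Results.MP_10e165_an.OrderThreeGeneral
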