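import Pool.Agent.Lib.H82OH.GE

set_option autoImplicit false

/-!
# Möbius disjointness for all totally ergodic maps of order two

`R` is an ergodic automorphism of a standard probability space `(Y, m)` all of whose iterates are
ergodic: its only eigenvalue which is a root of unity is `1`. The eigenvalue group is otherwise
arbitrary (for instance divisible), and no condition of Diophantine or arithmetic type is imposed.
`R` is of order two: `Y` is generated by isometric extensions, with arbitrary compact homogeneous
spaces as fibres and measurable cocycles, of rotation factors. Inverse limits of such systems, and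
their factors, are allowed. Every uniquely ergodic model of every factor of `R` is Möbius disjoint.
-/

namespace Pool.Agent.Results.MP_10e165_an.TotallyErgodicOrderTwo

open MeasureTheory Filter Topology

universe u₁ u₂ u₃ u₄ u₅

/-- `c` is an eigenvalue of `R` (with respect to the measure `m`): there is a measurable function `f`,
of modulus one almost everywhere, with `f (R y) = c * f y` for almost every `y`. -/
def IsEigenvalue {Y : Type*} [MeasurableSpace Y] (m : Measure Y) (R : Y → Y) (c : ℂ) : Prop :=
  ∃ f : Y → ℂ, Measurable f ∧ (∀ᵐ y ∂m, ‖f y‖ = 1) ∧ ∀ᵐ y ∂m, f (R y) = c * f y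

/-- `(X, T)`, with the measure `ν`, is a uniquely ergodic model of `(Y, m, R)`: `ν` is the only
`T`-invariant probability measure, and `θ : X → Y`, `ψ : Y → X` are measurable, inverse to each other
up to null sets, carry `ν` to `m` and `m` to `ν`, and `θ (T x) = R (θ x)` for almost every `x`. -/
structure IsUEModel {X Y : Type*} [MeasurableSpace X] [MeasurableSpace Y]
    (T : X → X) (ν : Measure X) (m : Measure Y) (R : Y → Y) (θ : X → Y) (ψ : Y → X) : Prop where
  prob : IsProbabilityMeasure ν
  inv : MeasurePreserving T ν ν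
  unique : ∀ ν' : Measure X, IsProbabilityMeasure ν' → MeasurePreserving T ν' ν' → ν' = ν
  meas_theta : Measurable θ
  meas_psi : Measurable ψ
  map_theta : ν.map θ = m
  map_psi : m.map ψ = ν
  left_inv : ∀ᵐ x ∂ν, ψ (θ x) = x
  right_inv : ∀ᵐ y ∂m, θ (ψ y) = y
  equiv : ∀ᵐ x ∂ν, θ (T x) = R (θ x)

/-- `v : Y → M` is an isometric step over the rotation factor `π : Y → Z`, `π (R y) = α * π y`: `M`
carries an action of the group `L` and the measure `muM`, `v` has the law `muM`, and
`v (R y) = g (π y) • v y` with a measurable `g : Z → L`. -/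
structure IsometricStep {Y Z L M : Type*} [MeasurableSpace Y] [MeasurableSpace Z] [Mul Z]
    [MeasurableSpace L] [MeasurableSpace M] [SMul L M] (m : Measure Y) (R : Y → Y) (π : Y → Z)
    (α : Z) (muM : Measure M) (v : Y → M) (g : Z → L) : Prop where
  meas_pi : Measurable π
  rot : ∀ y, π (R y) = α * π y
  law : MeasurePreserving v m muM
  meas : Measurable g
  equiv : ∀ y, v (R y) = g (π y) • v y

/-- Let `(Y, m)` be a standard probability space and `R` an ergodic invertible measure-preserving map
which has no eigenvalue but `1` among the roots of unity. For every `i` in a nonempty index set let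
`π i : Y → Z i` be a factor map onto a rotation of a compact metrizable abelian group and let
`v i : Y → M i` be an isometric step over `π i`, where `M i` is a compact metrizable space with a
continuous transitive action of the compact metrizable group `L i` and an invariant probability
measure. Let the σ-algebras generated by `(π i, v i)` be a directed family which generates the
measurable sets of `Y` up to null sets. Let `(Y₁, m₁, R₁)` be a factor of `(Y, m, R)`. Then every
uniquely ergodic model `(X, T)` of `R₁` is Möbius disjoint. -/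
theorem result {Y : Type u₁} {Y₁ : Type u₂} {X : Type u₃} {ι : Type u₄} [Nonempty ι]
    [MeasurableSpace Y] [StandardBorelSpace Y] [MeasurableSpace Y₁] (m : Measure Y)
    [IsProbabilityMeasure m] (m₁ : Measure Y₁) [IsProbabilityMeasure m₁] (R : Y ≃ᵐ Y)
    (hR : Ergodic R m)
    (hroot : ∀ l : ℂ, IsEigenvalue m R l → ∀ n : ℕ, 1 ≤ n → l ^ n = 1 → l = 1)
    {Z L M : ι → Type u₅}
    [∀ i, CommGroup (Z i)] [∀ i, TopologicalSpace (Z i)] [∀ i, IsTopologicalGroup (Z i)]
    [∀ i, CompactSpace (Z i)] [∀ i, T2Space (Z i)] [∀ i, SecondCountableTopology (Z i)]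
    [∀ i, MeasurableSpace (Z i)] [∀ i, BorelSpace (Z i)]
    [∀ i, Group (L i)] [∀ i, TopologicalSpace (L i)] [∀ i, IsTopologicalGroup (L i)]
    [∀ i, CompactSpace (L i)] [∀ i, T2Space (L i)] [∀ i, SecondCountableTopology (L i)]
    [∀ i, MeasurableSpace (L i)] [∀ i, BorelSpace (L i)]
    [∀ i, TopologicalSpace (M i)] [∀ i, CompactSpace (M i)] [∀ i, T2Space (M i)]
    [∀ i, SecondCountableTopology (M i)] [∀ i, MeasurableSpace (M i)] [∀ i, BorelSpace (M i)]
    [∀ i, MulAction (L i) (M i)] [∀ i, ContinuousSMul (L i) (M i)]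
    [∀ i, MulAction.IsPretransitive (L i) (M i)]
    (muM : ∀ i, Measure (M i)) [∀ i, IsProbabilityMeasure (muM i)]
    [∀ i, SMulInvariantMeasure (L i) (M i) (muM i)]
    (π : ∀ i, Y → Z i) (α : ∀ i, Z i) (v : ∀ i, Y → M i) (g : ∀ i, Z i → L i)
    (hstep : ∀ i, IsometricStep m R (π i) (α i) (muM i) (v i) (g i))
    (hdir : Directed (· ≤ ·) fun i =>
      MeasurableSpace.comap (π i) inferInstance ⊔ MeasurableSpace.comap (v i) inferInstance)
    (hgen : ∀ A : Set Y, MeasurableSet A → ∃ B,
      MeasurableSet[⨆ i, (MeasurableSpace.comap (π i) inferInstance ⊔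
        MeasurableSpace.comap (v i) inferInstance)] B ∧ m (symmDiff A B) = 0)
    (R₁ : Y₁ ≃ᵐ Y₁) (τ : Y → Y₁) (hτ : MeasurePreserving τ m m₁)
    (hτR : ∀ᵐ y ∂m, τ (R y) = R₁ (τ y))
    [MetricSpace X] [CompactSpace X] [MeasurableSpace X] [BorelSpace X]
    (T : X ≃ₜ X) (ν : Measure X) (θ : X → Y₁) (ψ : Y₁ → X) (hmodel : IsUEModel T ν m₁ R₁ θ ψ)
    (f : C(X, ℂ)) (x : X) :
    Tendsto (fun N : ℕ => (1 / (N : ℂ)) *
      ∑ n ∈ Finset.Icc 1 N, f ((⇑T)^[n] x) * (ArithmeticFunction.moebius n : ℂ)) atTop (𝓝 0) :=
  Pool.Agent.Lib.H82OH.main_order_two R hR hroot π (fun i => (hstep i).meas_pi) α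
    (fun i => (hstep i).rot) muM v (fun i => (hstep i).law) g (fun i => (hstep i).meas)
    (fun i => (hstep i).equiv) hdir hgen R₁ τ hτ hτR T ν θ ψ
    ⟨hmodel.prob, hmodel.inv, hmodel.unique, hmodel.meas_theta, hmodel.meas_psi,
      hmodel.map_theta, hmodel.map_psi, hmodel.left_inv, hmodel.right_inv, hmodel.equiv⟩ f x

end Pool.Agent.Results.MP_10e165_an.TotallyErgodicOrderTwo
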